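import Pool.Agent.helper76.UF.Spec

set_option autoImplicit false

namespace Pool.Agent.UF

open Finset Polynomial NumberField

theorem QUK : QUK_stmt := by
  intro N l a R _ y hN hl hcyc
  obtain ⟨⟨hy, hind⟩, hspan, _⟩ := hcyc
  constructor
  · intro n₀ hdvd
    obtain ⟨β, hβ⟩ := hdvd
    obtain ⟨c, hc⟩ := hspan β
    obtain ⟨L, rfl⟩ : ∃ L, N = L + 1 := ⟨N - 1, by omega⟩
    obtain ⟨M, hM⟩ : ∃ M, M = l * L := ⟨_, rfl⟩
    have hlN : l * (L + 1) = l + M := by rw [hM]; ring
    have hlN' : l * (L + 1) = M + l := by rw [hM]; ring
    rw [hlN] at hind hy hc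
    obtain ⟨d, hd⟩ : ∃ d : ℕ → ℤ, d = fun i => if i < l then -c (M + i) else c (i - l) := ⟨_, rfl⟩
    have hshift : y ^ l * β = ∑ i ∈ range (l + M), (d i : R) * y ^ i := by
      have e1 : y ^ l * β = ∑ i ∈ range (M + l), (c i : R) * y ^ (i + l) := by
        rw [hc, add_comm l M, Finset.mul_sum]
        refine Finset.sum_congr rfl fun i _ => ?_
        rw [pow_add]; ring
      rw [e1, Finset.sum_range_add, Finset.sum_range_add, add_comm]
      congr 1
      · refine Finset.sum_congr rfl fun i hi => ?_
        have hi' : i < l := Finset.mem_range.mp hi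
        have e2 : M + i + l = (l + M) + i := by ring
        rw [e2, pow_add, hy, hd]
        simp only [hi', if_true]
        push_cast
        ring
      · refine Finset.sum_congr rfl fun i _ => ?_
        have h3 : ¬ (l + i < l) := by omega
        have h4 : l + i - l = i := by omega
        rw [hd]
        simp only [h3, if_false, h4]
        rw [add_comm i l]
    obtain ⟨e, he⟩ : ∃ e : ℕ → ℤ, e = fun i => a * c i - d i - (if i = 0 then n₀ else 0) := ⟨_, rfl⟩
    have hzero : ∑ i ∈ range (l + M), (e i : R) * y ^ i = 0 := by
      have e3 : ∑ i ∈ range (l + M), (e i : R) * y ^ i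
          = (a : R) * β - y ^ l * β - n₀ := by
        have e4 : ∑ i ∈ range (l + M), ((if i = 0 then n₀ else 0 : ℤ) : R) * y ^ i = n₀ := by
          rw [Finset.sum_eq_single 0]
          · simp
          · intro i _ hi
            simp [hi]
          · intro h
            exfalso
            apply h
            rw [Finset.mem_range]; omega
        rw [hshift, ← e4, hc, Finset.mul_sum, ← Finset.sum_sub_distrib, ← Finset.sum_sub_distrib]
        refine Finset.sum_congr rfl fun i _ => ?_
        rw [he]
        push_cast
        ring
      rw [e3, hβ]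
      unfold ff
      ring
    have hall := hind e hzero
    have h0 := hall 0 (by omega)
    have hrec : ∀ j, j < L → c (l * j) = a * c (l * (j + 1)) := by
      intro j hj
      have hlt : l * (j + 1) < l + M := by
        rw [hM]
        have : l * (j + 1) ≤ l * L := Nat.mul_le_mul_left l (by omega)
        omega
      have h1 := hall (l * (j + 1)) hlt
      rw [he, hd] at h1
      have hge : ¬ (l * (j + 1) < l) := by
        have : l * 1 ≤ l * (j + 1) := Nat.mul_le_mul_left l (by omega)
        omega
      have hne : l * (j + 1) ≠ 0 := by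
        have : l * 1 ≤ l * (j + 1) := Nat.mul_le_mul_left l (by omega)
        omega
      have hsub : l * (j + 1) - l = l * j := by
        rw [Nat.mul_succ]; omega
      simp only [hge, if_false, hne, hsub] at h1
      linarith
    have hpow : ∀ j, j ≤ L → c 0 = a ^ j * c (l * j) := by
      intro j
      induction j with
      | zero => intro _; simp
      | succ j ih =>
        intro hj
        rw [ih (by omega), hrec j (by omega), pow_succ]
        ring
    have hfin := hpow L le_rfl
    rw [he, hd] at h0
    have h0l : (0 : ℕ) < l := by omega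
    simp only [h0l, if_true, add_zero] at h0
    rw [hM] at h0
    refine ⟨c (l * L), ?_⟩
    push_cast
    rw [pow_succ]
    rw [hfin] at h0
    linarith
  · have h1 : ((a ^ N + 1 : ℕ) : R) = (a : R) ^ N - (y ^ l) ^ N := by
      rw [← pow_mul, hy]
      push_cast
      ring
    rw [h1]
    exact sub_dvd_pow_sub_pow _ _ N

end Pool.Agent.UF
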