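import Pool.Agent.helper76.UF.Spec

set_option autoImplicit false

namespace Pool.Agent.UF

open Finset Polynomial NumberField

theorem UFI_even {S : Type} [AddCommMonoid S] (f : ℕ → S) (K : ℕ) :
    ∑ i ∈ (range (2 * K)).filter (fun i => Even i), f i = ∑ k ∈ range K, f (2 * k) := by
  induction K with
  | zero => simp
  | succ K ih =>
    rw [Finset.sum_range_succ, ← ih, Finset.sum_filter, Finset.sum_filter]
    have e : 2 * (K + 1) = 2 * K + 1 + 1 := by ring
    rw [e, Finset.sum_range_succ, Finset.sum_range_succ]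
    have h1 : Even (2 * K) := ⟨K, by ring⟩
    have h2 : ¬ Even (2 * K + 1) := by
      rw [Nat.not_even_iff_odd]; exact ⟨K, rfl⟩
    rw [if_pos h1, if_neg h2, add_zero]

theorem UFI_odd {S : Type} [AddCommMonoid S] (f : ℕ → S) (K : ℕ) :
    ∑ i ∈ (range (2 * K)).filter (fun i => ¬ Even i), f i = ∑ k ∈ range K, f (2 * k + 1) := by
  induction K with
  | zero => simp
  | succ K ih =>
    rw [Finset.sum_range_succ, ← ih, Finset.sum_filter, Finset.sum_filter]
    have e : 2 * (K + 1) = 2 * K + 1 + 1 := by ring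
    rw [e, Finset.sum_range_succ, Finset.sum_range_succ]
    have h1 : ¬ ¬ Even (2 * K) := by
      rw [not_not]; exact ⟨K, by ring⟩
    have h2 : ¬ Even (2 * K + 1) := by
      rw [Nat.not_even_iff_odd]; exact ⟨K, rfl⟩
    rw [if_neg h1, if_pos h2, add_zero]

theorem UFI_core (h2 : UT1_stmt) (h3 : UF2_stmt) (m : ℕ) (R : Type) [CommRing R] [IsDomain R] (x : R)
    (b : R ≃+* R) (hm : 4 ≤ m) (hB : Bas (2 ^ m) x) (hb : IsBar x b) (c c' : ℕ → ℤ) (A B : R)
    (hA : A = ∑ i ∈ (range (2 ^ m)).filter (fun i => Even i), (c i : R) * x ^ i)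
    (hB' : B = ∑ i ∈ (range (2 ^ m)).filter (fun i => ¬ Even i), (c' i : R) * x ^ i)
    (hT : ∑ i ∈ (range (2 ^ m)).filter (fun i => Even i), (c i) ^ 2 ≤ 2)
    (h5 : A * b A + B * b B = 5) (hx : A * b B + b A * B = -(2 * (x + b x))) :
    ∃ i : ℕ, A + B = x ^ i * (2 - x) ∨ A + B = x ^ i * (2 - b x) := by
  have hxN : x ^ (2 ^ m) = -1 := hB.1
  have hpos : 16 ≤ 2 ^ m := by
    calc 16 = 2 ^ 4 := by norm_num
      _ ≤ 2 ^ m := Nat.pow_le_pow_right (by norm_num) hm
  have hnn : 0 ≤ ∑ i ∈ (range (2 ^ m)).filter (fun i => Even i), (c i) ^ 2 :=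
    Finset.sum_nonneg fun i _ => sq_nonneg _
  have hcase : (∑ i ∈ (range (2 ^ m)).filter (fun i => Even i), (c i) ^ 2 = 0) ∨
      (∑ i ∈ (range (2 ^ m)).filter (fun i => Even i), (c i) ^ 2 = 1) ∨
      (∑ i ∈ (range (2 ^ m)).filter (fun i => Even i), (c i) ^ 2 = 2) := by omega
  rcases hcase with hT0 | hT1 | hT2
  · exfalso
    have hz : ∀ i ∈ (range (2 ^ m)).filter (fun i => Even i), (c i) ^ 2 = 0 :=
      (Finset.sum_eq_zero_iff_of_nonneg fun i _ => sq_nonneg _).mp hT0
    have hA0 : A = 0 := by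
      rw [hA]
      refine Finset.sum_eq_zero fun i hi => ?_
      have := hz i hi
      have hc : c i = 0 := by
        have := pow_eq_zero_iff (two_ne_zero) |>.mp this
        exact this
      rw [hc]; simp
    rw [hA0] at hx
    simp only [map_zero, zero_mul, add_zero] at hx
    obtain ⟨N, hN⟩ : ∃ N, 2 ^ m = N + 1 := ⟨2 ^ m - 1, by omega⟩
    rw [hN] at hxN
    have hbx : b x = -(x ^ N) := by
      have h4 : x * (x ^ N) = -1 := by rw [← hxN, pow_succ]; ring
      have h6 : b x * x = 1 := hb.1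
      linear_combination (b x) * h4 - (x ^ N) * h6
    have h7 : ∑ i ∈ range (2 ^ m), (((if i = 1 then 2 else 0) + (if i = N then -2 else 0) : ℤ) : R) * x ^ i = 0 := by
      have e1 : ∀ i ∈ range (2 ^ m), (((if i = 1 then 2 else 0) + (if i = N then -2 else 0) : ℤ) : R) * x ^ i
          = (if i = 1 then 2 * x ^ i else 0) + (if i = N then -2 * x ^ i else 0) := by
        intro i _
        split_ifs <;> push_cast <;> ring
      rw [Finset.sum_congr rfl e1, Finset.sum_add_distrib, Finset.sum_ite_eq' , Finset.sum_ite_eq']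
      have m1 : 1 ∈ range (2 ^ m) := by rw [Finset.mem_range]; omega
      have m2 : N ∈ range (2 ^ m) := by rw [Finset.mem_range]; omega
      rw [if_pos m1, if_pos m2]
      linear_combination hx - 2 * hbx
    have h9 := hB.2 (fun i => (if i = 1 then 2 else 0) + (if i = N then -2 else 0)) h7 1 (by omega)
    have h10 : (1 : ℕ) ≠ N := by omega
    simp [h10] at h9
  · -- exactly one nonzero coefficient
    have hex : ∃ j ∈ (range (2 ^ m)).filter (fun i => Even i), c j ≠ 0 := by
      by_contra hcon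
      push_neg at hcon
      have : ∑ i ∈ (range (2 ^ m)).filter (fun i => Even i), (c i) ^ 2 = 0 :=
        Finset.sum_eq_zero fun i hi => by rw [hcon i hi]; norm_num
      omega
    obtain ⟨j, hj, hcj⟩ := hex
    have hsplit := Finset.add_sum_erase _ (fun i => (c i) ^ 2) hj
    have hsplitA := Finset.add_sum_erase _ (fun i => (c i : R) * x ^ i) hj
    have hge1 : 1 ≤ (c j) ^ 2 := by
      have : 0 < (c j) ^ 2 := by positivity
      omega
    have hge0 : 0 ≤ ∑ i ∈ ((range (2 ^ m)).filter (fun i => Even i)).erase j, (c i) ^ 2 :=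
      Finset.sum_nonneg fun i _ => sq_nonneg _
    have hcj1 : (c j) ^ 2 = 1 := by omega
    have hrest : ∑ i ∈ ((range (2 ^ m)).filter (fun i => Even i)).erase j, (c i) ^ 2 = 0 := by omega
    have hz : ∀ i ∈ ((range (2 ^ m)).filter (fun i => Even i)).erase j, (c i) ^ 2 = 0 :=
      (Finset.sum_eq_zero_iff_of_nonneg fun i _ => sq_nonneg _).mp hrest
    have hA1 : A = (c j : R) * x ^ j := by
      rw [hA, ← hsplitA]
      have : ∑ i ∈ ((range (2 ^ m)).filter (fun i => Even i)).erase j, (c i : R) * x ^ i = 0 := by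
        refine Finset.sum_eq_zero fun i hi => ?_
        have h4 := hz i hi
        have hc : c i = 0 := (pow_eq_zero_iff (two_ne_zero)).mp h4
        rw [hc]; simp
      rw [this, add_zero]
    have hpm : c j = 1 ∨ c j = -1 := by
      have h4 : (c j - 1) * (c j + 1) = 0 := by linear_combination hcj1
      rcases mul_eq_zero.mp h4 with h | h
      · left; omega
      · right; omega
    rcases hpm with h1 | h1
    · rw [h1] at hA1
      refine h2 (2 ^ m) R x b (by omega) hxN hb A B j ?_ h5 hx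
      rw [hA1]; simp
    · rw [h1] at hA1
      refine h2 (2 ^ m) R x b (by omega) hxN hb A B (j + 2 ^ m) ?_ h5 hx
      rw [hA1, pow_add, hxN]; push_cast; ring
  · exact (h3 m R x b hm hB hb c c' A B hA hB' hT2 h5 hx).elim

theorem UFI (h1 : UEO_stmt) (h2 : UT1_stmt) (h3 : UF2_stmt) : U_stmt := by
  intro m R _ _ x b hm hB hb c ρ hρ hprod
  have hxN : x ^ (2 ^ m) = -1 := hB.1
  have hpos : 16 ≤ 2 ^ m := by
    calc 16 = 2 ^ 4 := by norm_num
      _ ≤ 2 ^ m := Nat.pow_le_pow_right (by norm_num) hm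
  have hxx : b x * x = 1 := hb.1
  obtain ⟨A, hA⟩ : ∃ A : R, A = ∑ i ∈ (range (2 ^ m)).filter (fun i => Even i), (c i : R) * x ^ i := ⟨_, rfl⟩
  obtain ⟨B, hBd⟩ : ∃ B : R, B = ∑ i ∈ (range (2 ^ m)).filter (fun i => ¬ Even i), (c i : R) * x ^ i := ⟨_, rfl⟩
  have hAB : A + B = ρ := by
    rw [hA, hBd, hρ]
    exact Finset.sum_filter_add_sum_filter_not _ _ _
  have hprod' : (∑ i ∈ range (2 ^ m), (c i : R) * x ^ i) * b (∑ i ∈ range (2 ^ m), (c i : R) * x ^ i)
      = 5 - 2 * (x + b x) := by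
    rw [← hρ, hprod]
    linear_combination hxx
  obtain ⟨g5, gx, gT⟩ := h1 m R x b (by omega) hB hb c hprod' A B hA hBd
  have hTs := Finset.sum_filter_add_sum_filter_not (range (2 ^ m)) (fun i => Even i) (fun i => (c i) ^ 2)
  rw [gT] at hTs
  by_cases hT : ∑ i ∈ (range (2 ^ m)).filter (fun i => Even i), (c i) ^ 2 ≤ 2
  · obtain ⟨i, hi⟩ := UFI_core h2 h3 m R x b hm hB hb c c A B hA hBd hT g5 gx
    rw [hAB] at hi
    exact ⟨i, hi⟩
  · have hT' : ∑ i ∈ (range (2 ^ m)).filter (fun i => ¬ Even i), (c i) ^ 2 ≤ 2 := by omega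
    obtain ⟨L, hL⟩ : ∃ L, 2 ^ m = 2 * (L + 1) := by
      refine ⟨2 ^ (m - 1) - 1, ?_⟩
      have : 2 ^ m = 2 * 2 ^ (m - 1) := by
        rw [← pow_succ']
        congr 1
        omega
      omega
    obtain ⟨d, hd⟩ : ∃ d : ℕ → ℤ, d = fun i => if i = 0 then -c (2 * L + 1) else c (i - 1) := ⟨_, rfl⟩
    have hd0 : d 0 = -c (2 * L + 1) := by rw [hd]; simp
    have hds : ∀ i, d (i + 1) = c i := by intro i; rw [hd]; simp
    have hxN' : x ^ (2 * L + 1) * x = -1 := by
      rw [← pow_succ, ← hxN, hL]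
      congr 1
    have e1 : x * B = ∑ i ∈ (range (2 ^ m)).filter (fun i => Even i), (d i : R) * x ^ i := by
      rw [hBd, hL, UFI_even, UFI_odd, Finset.sum_range_succ, Finset.sum_range_succ', mul_add, Finset.mul_sum]
      congr 1
      · refine Finset.sum_congr rfl fun k _ => ?_
        have : 2 * (k + 1) = (2 * k + 1) + 1 := by ring
        rw [this, hds, pow_succ]
        ring
      · rw [mul_zero, hd0, pow_zero]
        push_cast
        linear_combination (c (2 * L + 1) : R) * hxN'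
    have e2 : x * A = ∑ i ∈ (range (2 ^ m)).filter (fun i => ¬ Even i), (d i : R) * x ^ i := by
      rw [hA, hL, UFI_even, UFI_odd, Finset.mul_sum]
      refine Finset.sum_congr rfl fun k _ => ?_
      rw [hds, pow_succ]
      ring
    have e3 : ∑ i ∈ (range (2 ^ m)).filter (fun i => Even i), (d i) ^ 2 ≤ 2 := by
      have e4 : ∑ i ∈ (range (2 ^ m)).filter (fun i => Even i), (d i) ^ 2
          = ∑ i ∈ (range (2 ^ m)).filter (fun i => ¬ Even i), (c i) ^ 2 := by
        rw [hL, UFI_even, UFI_odd, Finset.sum_range_succ', Finset.sum_range_succ]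
        congr 1
        · refine Finset.sum_congr rfl fun k _ => ?_
          have : 2 * (k + 1) = (2 * k + 1) + 1 := by ring
          rw [this, hds]
        · rw [mul_zero, hd0]; ring
      rw [e4]; exact hT'
    have f5 : (x * B) * b (x * B) + (x * A) * b (x * A) = 5 := by
      rw [map_mul, map_mul]
      linear_combination g5 + (A * b A + B * b B) * hxx
    have fx : (x * B) * b (x * A) + b (x * B) * (x * A) = -(2 * (x + b x)) := by
      rw [map_mul, map_mul]
      linear_combination gx + (A * b B + b A * B) * hxx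
    obtain ⟨i, hi⟩ := UFI_core h2 h3 m R x b hm hB hb d d (x * B) (x * A) e1 e2 e3 f5 fx
    have hsum : x * B + x * A = x * ρ := by rw [← hAB]; ring
    rw [hsum] at hi
    have hinv : x ^ (2 * 2 ^ m - 1) * x = 1 := by
      rw [← pow_succ]
      have : 2 * 2 ^ m - 1 + 1 = 2 ^ m * 2 := by omega
      rw [this, pow_mul, hxN]; ring
    refine ⟨2 * 2 ^ m - 1 + i, ?_⟩
    rcases hi with hi | hi
    · left
      rw [pow_add, mul_assoc, ← hi, ← mul_assoc, hinv, one_mul]
    · right
      rw [pow_add, mul_assoc, ← hi, ← mul_assoc, hinv, one_mul]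

end Pool.Agent.UF
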