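import Pool.Agent.helper76.UF.Spec

set_option autoImplicit false

namespace Pool.Agent.UF

open Finset Polynomial NumberField

theorem UT1 : UT1_stmt := by
  intro N R _ _ x b hN hx hb A B j hA h5 h2
  obtain ⟨hbx, hbb⟩ := hb
  set y := b x with hy
  have hby : b y = x := by rw [hy]; exact hbb x
  have hbA : b A = y ^ j := by rw [hA, map_pow]
  have hxy : x * y = 1 := by rw [mul_comm]; exact hbx
  have hxyj : x ^ j * y ^ j = 1 := by rw [← mul_pow, hxy, one_pow]
  have hAA : A * b A = 1 := by rw [hbA, hA, hxyj]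
  have hBB : B * b B = 4 := by
    have : A * b A + B * b B = 5 := h5
    rw [hAA] at this
    linear_combination this
  obtain ⟨B1, hB1⟩ : ∃ B1, B1 = y ^ j * B := ⟨_, rfl⟩
  have hB : B = x ^ j * B1 := by
    rw [hB1, ← mul_assoc, hxyj, one_mul]
  have hbB1 : b B1 = x ^ j * b B := by
    rw [hB1, map_mul, map_pow, hby]
  have hsum : B1 + b B1 = -(2 * (x + y)) := by
    rw [hbB1, hB1, ← h2, hbA, hA]; ring
  have hprod : B1 * b B1 = 4 := by
    rw [hbB1, hB1]
    have : y ^ j * B * (x ^ j * b B) = (x ^ j * y ^ j) * (B * b B) := by ring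
    rw [this, hxyj, hBB, one_mul]
  have hfac : (B1 + 2 * x) * (B1 + 2 * y) = 0 := by
    linear_combination 4 * hxy + B1 * hsum - hprod
  have hx2 : x ^ (2 * N) = 1 := by
    rw [mul_comm, pow_mul, hx]; ring
  have hyx : y = x ^ (2 * N - 1) := by
    have h3 : x ^ (2 * N - 1) * x = 1 := by
      rw [← pow_succ]
      have : 2 * N - 1 + 1 = 2 * N := by omega
      rw [this, hx2]
    calc y = (x ^ (2 * N - 1) * x) * y := by rw [h3, one_mul]
      _ = x ^ (2 * N - 1) * (x * y) := by ring
      _ = x ^ (2 * N - 1) := by rw [hxy, mul_one]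
  rcases mul_eq_zero.mp hfac with h | h
  · refine ⟨j + 1 + N, Or.inr ?_⟩
    have hB1x : B1 = -(2 * x) := by linear_combination h
    rw [hB, hB1x, hA, pow_add, pow_add, hx, pow_one]
    linear_combination (x ^ j) * (1 - hxy)
  · refine ⟨j + N + (2 * N - 1), Or.inl ?_⟩
    have hB1y : B1 = -(2 * y) := by linear_combination h
    rw [hB, hB1y, hA, pow_add, pow_add, hx, ← hyx]
    linear_combination (-(x ^ j)) * hxy

end Pool.Agent.UF
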